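import Pool.Agent.Y254.EL.Fin
import Pool.Agent.W772.Tri5
import Pool.Agent.R251.Nec.Grid

set_option autoImplicit false

/-!
# From complete systems of caps to tubes with small slopes
-/

open MeasureTheory Set Filter Topology ENNReal NNReal Metric

namespace Pool.Agent.N249.KE

open Pool.Agent.H810R3.Tub (Vec Space nor box Fb dir Fb_measurable norm_dir finrank_space norm_e box_closed)
open Pool.Agent.Y254 (mult mult_meas)
open Pool.Agent.Y254.EL (tb Sep Pt tb_meas)

variable {d : ℕ}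

/-- The integral bound at the critical exponent, with losses, for complete systems of caps. -/
def Crit (d : ℕ) (σ κ ε C : ℝ) : Prop := ∀ N : ℝ, 1 ≤ N → ∀ (ι : Type) [Fintype ι] (ω : ι → Vec d)
    (f : ι → Fin d → Space d) (a : ι → Space d), (∀ i, ‖ω i‖ ≤ 1) →
    (∀ i j, i ≠ j → σ / N ≤ ‖ω i - ω j‖) → κ * N ^ d ≤ (Fintype.card ι : ℝ) →
    (∀ i, Orthonormal ℝ (Fin.cons (nor (ω i)) (f i) : Fin (d + 1) → Space d)) →
    ∫⁻ y, Fb N ω f a y ^ (1 + 1 / (d : ℝ)) ≤ ENNReal.ofReal (C * N ^ ε * N ^ (2 * (d + 1)))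

/-- The point of `Space d` with given height and position, scaled. -/
noncomputable def psi (L : ℝ) (z : Pt d) : Space d := WithLp.toLp 2 (L • WithLp.toLp 2 z.2, L * z.1)

theorem norm_toLp_le (x : Fin d → ℝ) : ‖(WithLp.toLp 2 x : Vec d)‖ ≤ d * ‖x‖ := by
  apply le_of_sq_le_sq _ (by positivity)
  rw [EuclideanSpace.real_norm_sq_eq, mul_pow]
  calc ∑ j, (WithLp.toLp 2 x : Vec d) j ^ 2 ≤ ∑ _j : Fin d, ‖x‖ ^ 2 := by
        refine Finset.sum_le_sum fun j _ => ?_
        rw [← sq_abs]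
        exact pow_le_pow_left₀ (abs_nonneg _) (norm_le_pi_norm x j) 2
    _ = d * ‖x‖ ^ 2 := by rw [Finset.sum_const, Finset.card_univ, Fintype.card_fin, nsmul_eq_mul]
    _ ≤ (d : ℝ) ^ 2 * ‖x‖ ^ 2 := by
        gcongr
        have h : (0 : ℝ) ≤ d := Nat.cast_nonneg d
        rcases Nat.eq_zero_or_pos d with h0 | h0
        · rw [h0]; norm_num
        · have h1 : (1 : ℝ) ≤ d := by exact_mod_cast h0
          nlinarith

theorem norm_toLp_ge (x : Fin d → ℝ) : ‖x‖ ≤ ‖(WithLp.toLp 2 x : Vec d)‖ := by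
  rw [pi_norm_le_iff_of_nonneg (norm_nonneg _)]
  intro j
  exact PiLp.norm_apply_le (WithLp.toLp 2 x : Vec d) j

/-- A tube with a small slope is contained in one box. -/
theorem mem_box (hd : 1 ≤ d) {R δ : ℝ} (hR : 1 ≤ R) (hδ : 0 < δ) {b : ℝ} {P u : Fin d → ℝ}
    (hu : ‖u‖ ≤ 1 / (4 * d)) {f : Fin d → Space d}
    (hf : Orthonormal ℝ (Fin.cons (nor (-(1 / 2 : ℝ) • WithLp.toLp 2 u : Vec d)) f :
      Fin (d + 1) → Space d)) {z : Pt d} (hz : z ∈ tb R (R * δ) b P u) (hδ1 : δ < 1) :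
    psi ((1 / δ) ^ 2 / (2 * (d + 2) * R)) z ∈
      box (1 / δ) (nor (-(1 / 2 : ℝ) • WithLp.toLp 2 u : Vec d)) f
        (psi ((1 / δ) ^ 2 / (2 * (d + 2) * R)) (b, P + b • u)) := by
  have hd1 : (1 : ℝ) ≤ d := by exact_mod_cast hd
  have hd0 : (0 : ℝ) < d := by linarith
  have hR0 : 0 < R := by linarith
  set N : ℝ := 1 / δ with hN
  have hN0 : 0 < N := by positivity
  have hNδ : N * δ = 1 := by rw [hN]; field_simp
  set L : ℝ := N ^ 2 / (2 * (d + 2) * R) with hL
  have hL0 : 0 < L := by positivity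
  obtain ⟨h1, h2⟩ := hz
  have hnor : nor (-(1 / 2 : ℝ) • WithLp.toLp 2 u : Vec d) = dir (WithLp.toLp 2 u : Vec d) := by
    unfold nor
    congr 1
    rw [smul_smul]
    norm_num
  rw [hnor] at hf ⊢
  set U : Vec d := WithLp.toLp 2 u with hU
  have hUn : ‖U‖ ≤ 1 / 4 := by
    refine (norm_toLp_le u).trans ?_
    calc (d : ℝ) * ‖u‖ ≤ d * (1 / (4 * d)) := by gcongr
      _ = 1 / 4 := by field_simp
  set c : ℝ := √(1 + ‖U‖ ^ 2) with hc
  have hc2 : c ≤ 2 := by
    rw [hc]
    apply Real.sqrt_le_iff.2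
    refine ⟨by norm_num, ?_⟩
    have := norm_nonneg U
    nlinarith
  have hc0 : 0 < c := by positivity
  have he : ‖dir U‖ = 1 := norm_dir U
  set ξ : Fin d → ℝ := z.2 - P - z.1 • u with hξ
  set w : Space d := WithLp.toLp 2 (L • WithLp.toLp 2 ξ, (0 : ℝ)) with hw
  have hwn : ‖w‖ ≤ N / 2 := by
    have e1 : ‖w‖ = ‖(L • WithLp.toLp 2 ξ : Vec d)‖ := by
      apply (sq_eq_sq₀ (norm_nonneg _) (norm_nonneg _)).1
      rw [Pool.Agent.H810R3.Tub.norm_space_sq, hw]
      simp
    rw [e1, norm_smul, Real.norm_eq_abs, abs_of_pos hL0]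
    calc L * ‖(WithLp.toLp 2 ξ : Vec d)‖ ≤ L * (d * (R * δ)) := by
          gcongr
          exact (norm_toLp_le ξ).trans (by gcongr)
      _ = N * (N * δ) * d / (2 * (d + 2)) := by rw [hL]; field_simp
      _ = N * (d / (2 * (d + 2))) := by rw [hNδ]; ring
      _ ≤ N * (1 / 2) := by
          apply mul_le_mul_of_nonneg_left _ hN0.le
          rw [div_le_div_iff₀ (by positivity) (by positivity)]
          linarith
      _ = N / 2 := by ring
  have hwn2 : ‖w‖ ≤ L * (d * R) := by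
    have e1 : ‖w‖ = ‖(L • WithLp.toLp 2 ξ : Vec d)‖ := by
      apply (sq_eq_sq₀ (norm_nonneg _) (norm_nonneg _)).1
      rw [Pool.Agent.H810R3.Tub.norm_space_sq, hw]
      simp
    rw [e1, norm_smul, Real.norm_eq_abs, abs_of_pos hL0]
    gcongr
    refine (norm_toLp_le ξ).trans ?_
    gcongr
    refine h2.trans ?_
    calc R * δ ≤ R * 1 := by gcongr
      _ = R := mul_one R
  have key : psi L z - psi L (b, P + b • u) = (L * (z.1 - b) * c) • dir U + w := by
    have e1 : (L * (z.1 - b) * c) • dir U = (L * (z.1 - b)) • (WithLp.toLp 2 (U, (1 : ℝ)) : Space d) := by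
      unfold dir
      rw [smul_smul, ← hc, mul_assoc, mul_inv_cancel₀ hc0.ne', mul_one]
    rw [e1]
    unfold psi
    rw [hw, hξ]
    have e2 : (WithLp.toLp 2 (L • WithLp.toLp 2 z.2, L * z.1) : Space d) -
        WithLp.toLp 2 (L • WithLp.toLp 2 (P + b • u), L * b) =
        WithLp.toLp 2 (L • WithLp.toLp 2 z.2 - L • WithLp.toLp 2 (P + b • u), L * z.1 - L * b) := rfl
    have e3 : (L * (z.1 - b)) • (WithLp.toLp 2 (U, (1 : ℝ)) : Space d) +
        WithLp.toLp 2 (L • WithLp.toLp 2 (z.2 - P - z.1 • u), (0 : ℝ)) =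
        WithLp.toLp 2 ((L * (z.1 - b)) • U + L • WithLp.toLp 2 (z.2 - P - z.1 • u),
          (L * (z.1 - b)) • (1 : ℝ) + 0) := rfl
    rw [e2, e3]
    congr 1
    refine Prod.ext ?_ ?_
    · ext j
      simp only [hU, PiLp.sub_apply, PiLp.smul_apply, PiLp.add_apply, PiLp.toLp_apply, Pi.add_apply,
        Pi.sub_apply, Pi.smul_apply, smul_eq_mul]
      ring
    · simp only [smul_eq_mul]
      ring
  have hee : inner ℝ (dir U) (dir U) = (1 : ℝ) := by
    rw [real_inner_self_eq_norm_sq, he, one_pow]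
  refine ⟨?_, fun j => ?_⟩
  · rw [key, inner_add_right, inner_smul_right, hee, mul_one]
    have h3 : |inner ℝ (dir U) w| ≤ ‖w‖ := by
      have := abs_real_inner_le_norm (dir U) w
      rwa [he, one_mul] at this
    calc |L * (z.1 - b) * c + inner ℝ (dir U) w| ≤ |L * (z.1 - b) * c| + |inner ℝ (dir U) w| :=
          abs_add_le _ _
      _ ≤ L * R * 2 + L * (d * R) := by
          apply add_le_add _ (h3.trans hwn2)
          rw [abs_mul, abs_mul, abs_of_pos hL0, abs_of_pos hc0]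
          gcongr
      _ = N ^ 2 / 2 := by rw [hL]; field_simp; ring
  · have horth : inner ℝ (f j) (dir U) = (0 : ℝ) := by
      have := hf.2 (i := j.succ) (j := 0) (Fin.succ_ne_zero j)
      simpa using this
    have hfj : ‖f j‖ = 1 := by
      have := hf.1 j.succ
      simpa using this
    rw [key, inner_add_right, inner_smul_right, horth, mul_zero, zero_add]
    have h3 := abs_real_inner_le_norm (f j) w
    rw [hfj, one_mul] at h3
    exact h3.trans hwn

/-- Change of variables. -/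
theorem lint_psi {L : ℝ} (hL : 0 < L) {g : Space d → ℝ≥0∞} (hg : Measurable g) :
    ∫⁻ z : Pt d, g (psi L z) = ENNReal.ofReal ((L ^ (d + 1))⁻¹) * ∫⁻ y, g y := by
  have hmp := WithLp.volume_preserving_toLp (Vec d) ℝ
  have hmp2 := PiLp.volume_preserving_toLp (Fin d)
  have hsc : ∫⁻ y : Space d, g (L • y) = ENNReal.ofReal ((L ^ (d + 1))⁻¹) * ∫⁻ y, g y := by
    have h := Pool.Agent.H810R3.Tub.lint_smul (E := Space d) volume hL.ne' g
    rw [finrank_space, abs_of_pos (by positivity)] at h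
    exact h
  rw [← hsc]
  have hg1 : Measurable (fun y : Space d => g (L • y)) := hg.comp (measurable_const_smul L)
  rw [← hmp.lintegral_comp hg1]
  have hg2 : Measurable (fun p : Vec d × ℝ => g (L • (WithLp.toLp 2 p : Space d))) :=
    hg1.comp hmp.measurable
  rw [Measure.volume_eq_prod (Vec d) ℝ, lintegral_prod_symm _ hg2.aemeasurable]
  have hpsi : Measurable (fun z : Pt d => g (psi L z)) := by
    refine hg.comp ?_
    have : Continuous (fun z : Pt d => psi L z) := by
      unfold psi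
      fun_prop
    exact this.measurable
  rw [Measure.volume_eq_prod ℝ (Fin d → ℝ), lintegral_prod _ hpsi.aemeasurable]
  refine lintegral_congr fun t => ?_
  have hg3 : Measurable (fun x : Vec d => g (L • (WithLp.toLp 2 (x, t) : Space d))) :=
    hg2.comp (measurable_id.prodMk measurable_const)
  rw [← hmp2.lintegral_comp hg3]
  rfl

end Pool.Agent.N249.KE
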