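import Pool.Agent.N249.KE.A

set_option autoImplicit false

/-!
# The inequality with losses for complete families of slopes
-/

open MeasureTheory Set Filter Topology ENNReal NNReal Metric

namespace Pool.Agent.N249.KE

open Pool.Agent.H810R3.Tub (Vec Space nor box Fb dir Fb_measurable norm_dir finrank_space norm_e box_closed)
open Pool.Agent.Y254 (mult mult_meas)
open Pool.Agent.Y254.EL (tb Sep Pt tb_meas)

variable {d : ℕ}

/-- Caps with centres in a grid, the first coordinates are at least `1/4`. -/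
theorem dummy (hd : 1 ≤ d) : ∃ κ : ℝ, 0 < κ ∧ ∀ N : ℝ, 1 ≤ N →
    ∃ (ι : Type) (_ : Fintype ι) (ω : ι → Vec d) (f : ι → Fin d → Space d),
      (∀ i, ‖ω i‖ ≤ 1) ∧ (∀ i j, i ≠ j → 1 / (8 * (d : ℝ)) / N ≤ ‖ω i - ω j‖) ∧
      κ * N ^ d ≤ (Fintype.card ι : ℝ) ∧
      (∀ i, Orthonormal ℝ (Fin.cons (nor (ω i)) (f i) : Fin (d + 1) → Space d)) ∧
      ∀ i, 1 / 4 ≤ ω i ⟨0, by omega⟩ := by
  have hd1 : (1 : ℝ) ≤ d := by exact_mod_cast hd
  obtain ⟨κ, hκ, h⟩ := Pool.Agent.R251.Nec.grid (d := d) hd (σ := 1) one_pos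
  refine ⟨κ, hκ, fun N hN => ?_⟩
  obtain ⟨ι, hι, ω, f, h1, h2, h3, -, -⟩ := h N hN
  have hN0 : 0 < N := by linarith
  set i0 : Fin d := ⟨0, by omega⟩ with hi0
  set e0 : Vec d := EuclideanSpace.single i0 (1 : ℝ) with he0
  have he0n : ‖e0‖ = 1 := by rw [he0, EuclideanSpace.norm_single, norm_one]
  set ω' : ι → Vec d := fun i => (1 / 4 : ℝ) • ω i + (1 / 2 : ℝ) • e0 with hω'
  have hfr : ∀ i, ∃ f : Fin d → Space d,
      Orthonormal ℝ (Fin.cons (nor (ω' i)) f : Fin (d + 1) → Space d) :=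
    fun i => Pool.Agent.R251.Nec.exists_frame _ (norm_dir _)
  choose g hg using hfr
  refine ⟨ι, hι, ω', g, ?_, ?_, h3, hg, ?_⟩
  · intro i
    calc ‖ω' i‖ ≤ ‖(1 / 4 : ℝ) • ω i‖ + ‖(1 / 2 : ℝ) • e0‖ := norm_add_le _ _
      _ = 1 / 4 * ‖ω i‖ + 1 / 2 := by
          rw [norm_smul, norm_smul, he0n]
          norm_num
      _ ≤ 1 / 4 * 1 + 1 / 2 := by gcongr; exact h1 i
      _ ≤ 1 := by norm_num
  · intro i j hij
    have e1 : ω' i - ω' j = (1 / 4 : ℝ) • (ω i - ω j) := by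
      simp only [hω']
      rw [smul_sub]
      abel
    rw [e1, norm_smul]
    have h4 := h2 i j hij
    have e2 : ‖(1 / 4 : ℝ)‖ = 1 / 4 := by norm_num
    rw [e2]
    calc 1 / (8 * (d : ℝ)) / N ≤ 1 / 4 / N := by
          gcongr
          linarith
      _ = 1 / 4 * (1 / N) := by ring
      _ ≤ _ := by gcongr
  · intro i
    have h4 : |ω i i0| ≤ 1 := by
      have := PiLp.norm_apply_le (ω i) i0
      rw [Real.norm_eq_abs] at this
      exact this.trans (h1 i)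
    have h5 := (abs_le.1 h4).1
    have e1 : ω' i i0 = 1 / 4 * ω i i0 + 1 / 2 := by
      simp only [hω', he0, PiLp.add_apply, PiLp.smul_apply, smul_eq_mul]
      rw [EuclideanSpace.single_apply]
      simp
    rw [e1]
    linarith

/-- Tubes with small slopes. -/
theorem full_small (hd : 1 ≤ d) : ∃ κ : ℝ, 0 < κ ∧ ∀ {R : ℝ}, 1 ≤ R → ∀ {ε C : ℝ},
    Crit d (1 / (8 * (d : ℝ))) κ ε C → ∀ {δ : ℝ}, 0 < δ → δ < 1 → ∀ {ι : Type} [Fintype ι]
    (b : ι → ℝ) (P u : ι → Fin d → ℝ), (∀ i, ‖u i‖ ≤ 1 / (4 * d)) → Sep δ u →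
    ∫⁻ z, mult (fun i => tb R (R * δ) (b i) (P i) (u i)) z ^ (1 + 1 / (d : ℝ)) ≤
      ENNReal.ofReal (C * (2 * (d + 2) * R) ^ (d + 1) * δ ^ (-ε)) := by
  have hd1 : (1 : ℝ) ≤ d := by exact_mod_cast hd
  have hd0 : (0 : ℝ) < d := by linarith
  obtain ⟨κ, hκ, hdum⟩ := dummy hd
  refine ⟨κ, hκ, ?_⟩
  intro R hR ε C hcrit δ hδ hδ1 ι _ b P u hu hsep
  have hR0 : 0 < R := by linarith
  set N : ℝ := 1 / δ with hN
  have hN1 : 1 ≤ N := by rw [hN, le_div_iff₀ hδ]; linarith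
  have hN0 : 0 < N := by linarith
  obtain ⟨ιB, hιB, ωB, fB, B1, B2, B3, B4, B5⟩ := hdum N hN1
  set L : ℝ := N ^ 2 / (2 * (d + 2) * R) with hL
  have hL0 : 0 < L := by positivity
  have hfr : ∀ i : ι, ∃ f : Fin d → Space d,
      Orthonormal ℝ (Fin.cons (nor (-(1 / 2 : ℝ) • WithLp.toLp 2 (u i) : Vec d)) f :
        Fin (d + 1) → Space d) :=
    fun i => Pool.Agent.R251.Nec.exists_frame _ (norm_dir _)
  choose fA hfA using hfr
  set ωA : ι → Vec d := fun i => -(1 / 2 : ℝ) • WithLp.toLp 2 (u i) with hωA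
  set ω : ι ⊕ ιB → Vec d := Sum.elim ωA ωB with hω
  set f : ι ⊕ ιB → Fin d → Space d := Sum.elim fA fB with hf
  set a : ι ⊕ ιB → Space d := Sum.elim (fun i => psi L (b i, P i + b i • u i)) (fun _ => 0) with ha
  have hnA : ∀ i, ‖ωA i‖ ≤ 1 / 8 := by
    intro i
    simp only [hωA]
    rw [norm_smul]
    have h1 := norm_toLp_le (u i)
    have e1 : ‖-(1 / 2 : ℝ)‖ = 1 / 2 := by norm_num
    rw [e1]
    calc 1 / 2 * ‖(WithLp.toLp 2 (u i) : Vec d)‖ ≤ 1 / 2 * (d * (1 / (4 * d))) := by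
          gcongr
          exact h1.trans (by gcongr; exact hu i)
      _ = 1 / 8 := by field_simp; norm_num
  have hσ : 1 / (8 * (d : ℝ)) / N ≤ 1 / 8 := by
    rw [div_div, div_le_div_iff₀ (by positivity) (by norm_num)]
    nlinarith [mul_le_mul hd1 hN1 zero_le_one hd0.le]
  have hAB : ∀ i j, 1 / (8 * (d : ℝ)) / N ≤ ‖ωA i - ωB j‖ := by
    intro i j
    refine hσ.trans ?_
    have h1 : |ωA i ⟨0, by omega⟩| ≤ 1 / 8 := by
      have := PiLp.norm_apply_le (ωA i) ⟨0, by omega⟩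
      rw [Real.norm_eq_abs] at this
      exact this.trans (hnA i)
    have h2 := B5 j
    have h3 := PiLp.norm_apply_le (ωA i - ωB j) ⟨0, by omega⟩
    rw [PiLp.sub_apply, Real.norm_eq_abs] at h3
    refine le_trans ?_ h3
    rw [abs_sub_comm]
    refine le_trans ?_ (le_abs_self _)
    have := (abs_le.1 h1).2
    linarith
  have hQ := hcrit N hN1 (ι ⊕ ιB) ω f a ?_ ?_ ?_ ?_
  · have hpt : ∀ z : Pt d, mult (fun i => tb R (R * δ) (b i) (P i) (u i)) z ≤
        Fb N ω f a (psi L z) := by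
      intro z
      unfold mult Fb
      rw [Fintype.sum_sum_type]
      refine le_trans ?_ le_self_add
      refine Finset.sum_le_sum fun i _ => ?_
      by_cases hz : z ∈ tb R (R * δ) (b i) (P i) (u i)
      · have h1 := mem_box hd hR hδ (hu i) (hfA i) hz hδ1
        rw [← hN, ← hL] at h1
        rw [indicator_of_mem hz]
        have h2 : psi L z ∈ box N (nor (ω (Sum.inl i))) (f (Sum.inl i)) (a (Sum.inl i)) := h1
        rw [indicator_of_mem h2]
        rfl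
      · rw [indicator_of_notMem hz]
        exact zero_le
    have hq0 : (0 : ℝ) ≤ 1 + 1 / (d : ℝ) := by positivity
    calc ∫⁻ z, mult (fun i => tb R (R * δ) (b i) (P i) (u i)) z ^ (1 + 1 / (d : ℝ))
        ≤ ∫⁻ z : Pt d, Fb N ω f a (psi L z) ^ (1 + 1 / (d : ℝ)) :=
          lintegral_mono fun z => ENNReal.rpow_le_rpow (hpt z) hq0
      _ = ENNReal.ofReal ((L ^ (d + 1))⁻¹) * ∫⁻ y, Fb N ω f a y ^ (1 + 1 / (d : ℝ)) :=
          lint_psi hL0 ((Fb_measurable N ω f a).pow_const _)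
      _ ≤ ENNReal.ofReal ((L ^ (d + 1))⁻¹) * ENNReal.ofReal (C * N ^ ε * N ^ (2 * (d + 1))) := by
          gcongr
      _ = _ := by
          rw [← ENNReal.ofReal_mul (by positivity)]
          congr 1
          have e1 : L ^ (d + 1) = N ^ (2 * (d + 1)) / (2 * (d + 2) * R) ^ (d + 1) := by
            rw [hL, div_pow, ← pow_mul]
          have e2 : N ^ ε = δ ^ (-ε) := by
            rw [hN, one_div, Real.inv_rpow hδ.le, Real.rpow_neg hδ.le]
          rw [e1, e2]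
          field_simp
  · rintro (i | i)
    · exact (hnA i).trans (by norm_num)
    · exact B1 i
  · rintro (i | i) (j | j) hij
    · have hne : i ≠ j := fun h => hij (by rw [h])
      have h1 := hsep i j hne
      have e1 : ωA i - ωA j = -(1 / 2 : ℝ) • (WithLp.toLp 2 (u i - u j) : Vec d) := by
        simp only [hωA]
        rw [← smul_sub]
        rfl
      show 1 / (8 * (d : ℝ)) / N ≤ ‖ωA i - ωA j‖
      rw [e1, norm_smul]
      have e2 : ‖-(1 / 2 : ℝ)‖ = 1 / 2 := by norm_num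
      rw [e2]
      have e3 : 1 / (8 * (d : ℝ)) / N = 1 / (8 * d) * δ := by rw [hN]; field_simp
      rw [e3]
      calc 1 / (8 * (d : ℝ)) * δ ≤ 1 / 2 * δ := by
            gcongr
            linarith
        _ ≤ 1 / 2 * ‖u i - u j‖ := by gcongr
        _ ≤ _ := by gcongr; exact norm_toLp_ge _
    · exact hAB i j
    · show 1 / (8 * (d : ℝ)) / N ≤ ‖ωB i - ωA j‖
      rw [norm_sub_rev]
      exact hAB j i
    · exact B2 i j (fun h => hij (by rw [h]))
  · rw [Fintype.card_sum]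
    push_cast
    have : (0 : ℝ) ≤ (Fintype.card ι : ℝ) := Nat.cast_nonneg _
    linarith
  · rintro (i | i)
    · exact hfA i
    · exact B4 i

/-- The inequality for complete families: slopes of norm at most two. -/
def Full (d : ℕ) (R q ε C : ℝ) : Prop := ∀ δ : ℝ, 0 < δ → δ < 1 → ∀ {ι : Type} [Fintype ι]
    (b : ι → ℝ) (P v : ι → Fin d → ℝ), (∀ i, ‖v i‖ ≤ 2) → Sep δ v →
    ∫⁻ x, mult (fun i => tb R (R * δ) (b i) (P i) (v i)) x ^ q ≤ ENNReal.ofReal (C * δ ^ (-ε))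

theorem full_two (hd : 1 ≤ d) : ∃ κ : ℝ, 0 < κ ∧ ∀ {R : ℝ}, 1 ≤ R → ∀ {ε C : ℝ}, 0 ≤ C →
    Crit d (1 / (8 * (d : ℝ))) κ ε C → ∃ C' : ℝ, 0 ≤ C' ∧ Full d R (1 + 1 / (d : ℝ)) ε C' := by
  have hd1 : (1 : ℝ) ≤ d := by exact_mod_cast hd
  have hd0 : (0 : ℝ) < d := by linarith
  obtain ⟨κ, hκ, hsm⟩ := full_small hd
  refine ⟨κ, hκ, ?_⟩
  intro R hR ε C hC hcrit
  have hR0 : 0 < R := by linarith
  set s : ℝ := 1 / (8 * d) with hs
  have hs0 : 0 < s := by positivity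
  have hs1 : s ≤ 1 := by rw [hs, div_le_one (by positivity)]; linarith
  refine ⟨s⁻¹ ^ d * (C * (2 * (d + 2) * R) ^ (d + 1) * s ^ (-ε)), by positivity, ?_⟩
  intro δ hδ hδ1 ι _ b P v hv hsep
  have h1 := hsm hR hcrit (δ := s * δ) (by positivity) (by nlinarith) b (fun i => s • P i)
    (fun i => s • v i) ?_ ?_
  · set F : Pt d → ℝ≥0∞ := fun z =>
      mult (fun i => tb R (R * (s * δ)) (b i) (s • P i) (s • v i)) z ^ (1 + 1 / (d : ℝ)) with hF
    have hFm : Measurable F := (mult_meas fun i => tb_meas _ _ _ _ _).pow_const _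
    have h2 := Pool.Agent.Y254.EL.lint_aniso (s := s⁻¹) (by positivity) (0 : Fin d → ℝ) hFm
    have h3 : ∀ z : Pt d, F (z.1, s⁻¹⁻¹ • (z.2 - z.1 • (0 : Fin d → ℝ))) =
        mult (fun i => tb R (R * δ) (b i) (P i) (v i)) z ^ (1 + 1 / (d : ℝ)) := by
      intro z
      rw [inv_inv, smul_zero, sub_zero]
      simp only [hF]
      congr 1
      unfold mult
      refine Finset.sum_congr rfl fun i _ => ?_
      have h4 : (((z.1, s • z.2) : Pt d) ∈ tb R (R * (s * δ)) (b i) (s • P i) (s • v i)) ↔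
          z ∈ tb R (R * δ) (b i) (P i) (v i) := by
        have e1 : s • z.2 - s • P i - z.1 • s • v i = s • (z.2 - P i - z.1 • v i) := by
          rw [smul_sub, smul_sub, smul_comm]
        show (|z.1 - b i| ≤ R ∧ ‖s • z.2 - s • P i - z.1 • s • v i‖ ≤ R * (s * δ)) ↔
          (|z.1 - b i| ≤ R ∧ ‖z.2 - P i - z.1 • v i‖ ≤ R * δ)
        rw [e1, norm_smul, Real.norm_eq_abs, abs_of_pos hs0]
        have e2 : R * (s * δ) = s * (R * δ) := by ring
        rw [e2, mul_le_mul_iff_right₀ hs0]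
      by_cases hz : z ∈ tb R (R * δ) (b i) (P i) (v i)
      · rw [indicator_of_mem hz, indicator_of_mem (h4.2 hz)]
        rfl
      · rw [indicator_of_notMem hz, indicator_of_notMem (fun h => hz (h4.1 h))]
    simp only [h3] at h2
    rw [h2]
    refine (mul_le_mul_right h1 _).trans ?_
    rw [← ENNReal.ofReal_mul (by positivity)]
    apply le_of_eq
    congr 1
    rw [Real.mul_rpow hs0.le hδ.le]
    ring
  · intro i
    rw [norm_smul, Real.norm_eq_abs, abs_of_pos hs0]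
    calc s * ‖v i‖ ≤ s * 2 := by gcongr; exact hv i
      _ = 1 / (4 * d) := by rw [hs]; field_simp; norm_num
  · intro i j hij
    rw [← smul_sub, norm_smul, Real.norm_eq_abs, abs_of_pos hs0]
    gcongr
    exact hsep i j hij

end Pool.Agent.N249.KE
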