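import Pool.Agent.N249.KE.B
import Pool.Agent.Y254.EL.Fwd

set_option autoImplicit false

/-!
# Random shifts
-/

open MeasureTheory Set Filter Topology ENNReal NNReal Metric

namespace Pool.Agent.N249.KE

open Pool.Agent.Y254 (mult mult_meas pmult pmult_eq)
open Pool.Agent.Y254.EL (tb Sep Pt tb_meas LoB)

/-- Shifts of an injective family which cover no cell too often. -/
theorem choose_shifts {ι W Cc : Type} [Fintype ι] [Nonempty ι] [Fintype W] [Nonempty W]
    [DecidableEq Cc] (c : ι → W → Cc)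
    (cells : Finset Cc) (h1 : ∀ w, Function.Injective (fun i => c i w))
    (h2 : ∀ i, Function.Injective (c i)) (K : ℕ)
    (hK : min (Fintype.card ι) (Fintype.card W) * K ≤ 2 * Fintype.card W) :
    ∃ g : Fin K → W, ∀ x ∈ cells,
      2 ^ (Finset.univ.filter fun p : ι × Fin K => c p.1 (g p.2) = x).card ≤ 8 * cells.card := by
  classical
  set M := Fintype.card ι with hM
  set Wn := Fintype.card W with hWn
  have hWn0 : 0 < Wn := Fintype.card_pos
  -- the number of indices in a cell
  set h : Cc → W → ℕ := fun x w => (Finset.univ.filter fun i => c i w = x).card with hh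
  have hh1 : ∀ x w, h x w ≤ 1 := by
    intro x w
    rw [hh]
    apply Finset.card_le_one.2
    intro i hi j hj
    rw [Finset.mem_filter] at hi hj
    exact h1 w (hi.2.trans hj.2.symm)
  have hpow : ∀ x w, 2 ^ h x w = 1 + h x w := by
    intro x w
    have := hh1 x w
    interval_cases h x w <;> rfl
  have hsum : ∀ x, ∑ w, h x w ≤ min M Wn := by
    intro x
    apply le_min
    · have e1 : ∑ w, h x w = ∑ i, (Finset.univ.filter fun w => c i w = x).card := by
        simp only [hh, Finset.card_filter]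
        exact Finset.sum_comm
      rw [e1]
      calc ∑ i, (Finset.univ.filter fun w => c i w = x).card ≤ ∑ _i : ι, 1 := by
            refine Finset.sum_le_sum fun i _ => ?_
            apply Finset.card_le_one.2
            intro w hw w' hw'
            rw [Finset.mem_filter] at hw hw'
            exact h2 i (hw.2.trans hw'.2.symm)
        _ = M := by simp [hM]
    · calc ∑ w, h x w ≤ ∑ _w : W, 1 := Finset.sum_le_sum fun w _ => hh1 x w
        _ = Wn := by simp [hWn]
  have hm : ∀ (g : Fin K → W) (x : Cc),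
      (Finset.univ.filter fun p : ι × Fin K => c p.1 (g p.2) = x).card = ∑ l, h x (g l) := by
    intro g x
    simp only [hh, Finset.card_filter]
    rw [Fintype.sum_prod_type_right]
  have hprod : ∀ x, ∑ g : Fin K → W, 2 ^ (∑ l, h x (g l)) = (∑ w, 2 ^ h x w) ^ K := by
    intro x
    rw [Fintype.sum_pow]
    refine Finset.sum_congr rfl fun g _ => ?_
    rw [Finset.prod_pow_eq_pow_sum]
  have hbd : ∀ x, ((∑ w, 2 ^ h x w : ℕ) : ℝ) ^ K ≤ 8 * (Wn : ℝ) ^ K := by
    intro x
    have e1 : (∑ w, 2 ^ h x w : ℕ) ≤ Wn + min M Wn := by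
      calc (∑ w, 2 ^ h x w : ℕ) = ∑ w, (1 + h x w) := Finset.sum_congr rfl fun w _ => hpow x w
        _ = Wn + ∑ w, h x w := by rw [Finset.sum_add_distrib]; simp [hWn]
        _ ≤ _ := by gcongr; exact hsum x
    have e2 : ((∑ w, 2 ^ h x w : ℕ) : ℝ) ≤ Wn * (1 + (min M Wn : ℕ) / Wn) := by
      have e3 : ((∑ w, 2 ^ h x w : ℕ) : ℝ) ≤ ((Wn + min M Wn : ℕ) : ℝ) := by exact_mod_cast e1
      refine e3.trans (le_of_eq ?_)
      push_cast
      field_simp
    calc ((∑ w, 2 ^ h x w : ℕ) : ℝ) ^ K ≤ (Wn * (1 + (min M Wn : ℕ) / Wn)) ^ K := by gcongr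
      _ = Wn ^ K * (1 + (min M Wn : ℕ) / Wn) ^ K := mul_pow _ _ _
      _ ≤ Wn ^ K * Real.exp ((min M Wn : ℕ) / Wn) ^ K := by
          gcongr
          rw [add_comm]
          exact Real.add_one_le_exp _
      _ = Wn ^ K * Real.exp (K * ((min M Wn : ℕ) / Wn)) := by rw [← Real.exp_nat_mul]
      _ ≤ Wn ^ K * Real.exp 2 := by
          gcongr
          have e4 : ((min M Wn * K : ℕ) : ℝ) ≤ ((2 * Wn : ℕ) : ℝ) := by exact_mod_cast hK
          have e5 : (0 : ℝ) < Wn := by exact_mod_cast hWn0
          rw [← mul_div_assoc, div_le_iff₀ e5]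
          push_cast at e4 ⊢
          linarith
      _ ≤ Wn ^ K * 8 := by
          gcongr
          have e6 : Real.exp 2 = Real.exp 1 * Real.exp 1 := by rw [← Real.exp_add]; norm_num
          have e7 := Real.exp_one_lt_d9
          have e8 := Real.exp_pos 1
          rw [e6]
          nlinarith
      _ = 8 * Wn ^ K := by ring
  have htot : ∑ g : Fin K → W, ∑ x ∈ cells,
      2 ^ (Finset.univ.filter fun p : ι × Fin K => c p.1 (g p.2) = x).card ≤
      ∑ _g : Fin K → W, 8 * cells.card := by
    have e1 : ∑ g : Fin K → W, ∑ x ∈ cells,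
        2 ^ (Finset.univ.filter fun p : ι × Fin K => c p.1 (g p.2) = x).card =
        ∑ x ∈ cells, (∑ w, 2 ^ h x w) ^ K := by
      rw [Finset.sum_comm]
      refine Finset.sum_congr rfl fun x _ => ?_
      rw [← hprod x]
      refine Finset.sum_congr rfl fun g _ => ?_
      rw [hm]
    rw [e1]
    have e2 : ∀ x ∈ cells, (∑ w, 2 ^ h x w) ^ K ≤ 8 * Wn ^ K := by
      intro x _
      have := hbd x
      exact_mod_cast this
    calc ∑ x ∈ cells, (∑ w, 2 ^ h x w) ^ K ≤ ∑ _x ∈ cells, 8 * Wn ^ K := Finset.sum_le_sum e2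
      _ = _ := by
          rw [Finset.sum_const, Finset.sum_const, Finset.card_univ, Fintype.card_fun,
            Fintype.card_fin, smul_eq_mul, smul_eq_mul, ← hWn]
          ring
  obtain ⟨g, -, hg⟩ := Finset.exists_le_of_sum_le (Finset.univ_nonempty (α := Fin K → W)) htot
  refine ⟨g, fun x hx => le_trans ?_ hg⟩
  exact Finset.single_le_sum (f := fun x =>
    2 ^ (Finset.univ.filter fun p : ι × Fin K => c p.1 (g p.2) = x).card) (fun _ _ => Nat.zero_le _) hx

/-- A colouring injective on the fibres. -/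
theorem fibre_colour {X Cc : Type} [Fintype X] [DecidableEq Cc] (c : X → Cc) (B : ℕ)
    (h : ∀ x, (Finset.univ.filter fun p => c p = x).card ≤ B) :
    ∃ col : X → Fin B, ∀ p p', c p = c p' → col p = col p' → p = p' := by
  classical
  have he : ∀ x, Nonempty ({p // c p = x} ↪ Fin B) := by
    intro x
    apply Function.Embedding.nonempty_of_card_le
    rw [Fintype.card_fin, Fintype.card_subtype]
    exact h x
  let e : ∀ x, {p // c p = x} ↪ Fin B := fun x => Classical.choice (he x)
  have key : ∀ x p (hp : c p = x), e (c p) ⟨p, rfl⟩ = e x ⟨p, hp⟩ := by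
    intro x p hp
    subst hp
    rfl
  refine ⟨fun p => e (c p) ⟨p, rfl⟩, fun p p' hc hcol => ?_⟩
  have h1 := key (c p') p hc
  have h2 : e (c p') ⟨p, hc⟩ = e (c p') ⟨p', rfl⟩ := by
    rw [← h1]
    exact hcol
  have h3 := (e (c p')).injective h2
  exact congrArg Subtype.val h3

/-- Superadditivity of powers. -/
theorem sum_rpow_le_rpow_sum {ι : Type*} (s : Finset ι) (a : ι → ℝ≥0∞) {q : ℝ} (hq : 1 ≤ q) :
    ∑ i ∈ s, a i ^ q ≤ (∑ i ∈ s, a i) ^ q := by
  classical
  induction s using Finset.induction_on with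
  | empty => simp
  | insert i s hi ih =>
    rw [Finset.sum_insert hi, Finset.sum_insert hi]
    calc a i ^ q + ∑ j ∈ s, a j ^ q ≤ a i ^ q + (∑ j ∈ s, a j) ^ q := by gcongr
      _ ≤ _ := ENNReal.add_rpow_le_rpow_add _ _ hq

end Pool.Agent.N249.KE
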