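import Pool.Agent.N249.KE.C

set_option autoImplicit false

/-!
# From complete families to all subfamilies
-/

open MeasureTheory Set Filter Topology ENNReal NNReal Metric

namespace Pool.Agent.N249.KE

open Pool.Agent.Y254 (mult mult_meas pmult pmult_eq)
open Pool.Agent.Y254.EL (tb Sep Pt tb_meas LoB)

variable {d : ℕ}

/-- Shear invariance. -/
theorem shear (R r : ℝ) {ι : Type} [Fintype ι] (b : ι → ℝ) (P v : ι → Fin d → ℝ) (w : Fin d → ℝ)
    (q : ℝ) : ∫⁻ z, mult (fun i => tb R r (b i) (P i) (v i + w)) z ^ q =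
      ∫⁻ z, mult (fun i => tb R r (b i) (P i) (v i)) z ^ q := by
  set F : Pt d → ℝ≥0∞ := fun z => mult (fun i => tb R r (b i) (P i) (v i)) z ^ q with hF
  have hFm : Measurable F := (mult_meas fun i => tb_meas _ _ _ _ _).pow_const _
  have h2 := Pool.Agent.Y254.EL.lint_aniso (s := 1) one_pos w hFm
  rw [one_pow, ENNReal.ofReal_one, one_mul] at h2
  rw [← h2]
  refine lintegral_congr fun z => ?_
  simp only [hF]
  congr 1
  unfold mult
  refine Finset.sum_congr rfl fun i _ => ?_
  have h4 : z ∈ tb R r (b i) (P i) (v i + w) ↔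
      ((z.1, (1 : ℝ)⁻¹ • (z.2 - z.1 • w)) : Pt d) ∈ tb R r (b i) (P i) (v i) := by
    have e1 : z.2 - P i - z.1 • (v i + w) = (1 : ℝ)⁻¹ • (z.2 - z.1 • w) - P i - z.1 • v i := by
      rw [inv_one, one_smul, smul_add]
      abel
    show (|z.1 - b i| ≤ R ∧ ‖z.2 - P i - z.1 • (v i + w)‖ ≤ r) ↔
      (|z.1 - b i| ≤ R ∧ ‖(1 : ℝ)⁻¹ • (z.2 - z.1 • w) - P i - z.1 • v i‖ ≤ r)
    rw [e1]
  by_cases hz : z ∈ tb R r (b i) (P i) (v i + w)
  · rw [indicator_of_mem hz, indicator_of_mem (h4.1 hz)]
    rfl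
  · rw [indicator_of_notMem hz, indicator_of_notMem (fun h => hz (h4.2 h))]

/-- A family with at most `B` members in each cell. -/
theorem split_cells {R q ε C : ℝ} (hq : 1 ≤ q) (hC : 0 ≤ C) (hF : Full d R q ε C) {δ : ℝ} (hδ : 0 < δ)
    (hδ1 : δ < 1) {X : Type} [Fintype X] (b : X → ℝ) (P y : X → Fin d → ℝ) (hy : ∀ p, ‖y p‖ ≤ 2)
    (B : ℕ) (hB : ∀ x : Fin d → ℤ, (Finset.univ.filter fun p => (fun j => ⌊y p j / δ⌋) = x).card ≤ B) :
    ∫⁻ z, mult (fun p => tb R (R * δ) (b p) (P p) (y p)) z ^ q ≤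
      ENNReal.ofReal (((2 ^ d * B : ℕ) : ℝ) ^ q * (C * δ ^ (-ε))) := by
  classical
  obtain ⟨col, hcol⟩ := fibre_colour (fun p => (fun j => ⌊y p j / δ⌋ : Fin d → ℤ)) B hB
  set κ : X → (Fin d → Bool) × Fin B := fun p => (fun j => decide (Even ⌊y p j / δ⌋), col p) with hκ
  have hq0 : 0 ≤ q := by linarith
  set T : X → Set (Pt d) := fun p => tb R (R * δ) (b p) (P p) (y p) with hT
  have hTm : ∀ p, MeasurableSet (T p) := fun p => tb_meas _ _ _ _ _
  have hsum : ∀ z, mult T z = ∑ c, pmult T κ c z := by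
    intro z
    unfold mult pmult
    rw [Finset.sum_comm]
    refine Finset.sum_congr rfl fun p _ => ?_
    rw [Finset.sum_ite_eq Finset.univ (κ p)]
    simp
  have hpm : ∀ c, Measurable (pmult T κ c) := by
    intro c
    have : pmult T κ c = mult (fun i : {i // κ i = c} => T i) := funext fun x => pmult_eq T κ c x
    rw [this]
    exact mult_meas fun i => hTm _
  have hpart : ∀ c, ∫⁻ z, pmult T κ c z ^ q ≤ ENNReal.ofReal (C * δ ^ (-ε)) := by
    intro c
    simp only [pmult_eq]
    refine hF δ hδ hδ1 (fun i : {i // κ i = c} => b i) (fun i => P i) (fun i => y i)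
      (fun i => hy i) ?_
    intro i j hij
    by_contra hcon
    push Not at hcon
    have hcell : (fun k => ⌊y i k / δ⌋ : Fin d → ℤ) = fun k => ⌊y j k / δ⌋ := by
      funext k
      by_contra hne
      have hpar : Even ⌊y i k / δ⌋ ↔ Even ⌊y j k / δ⌋ := by
        have e1 : κ i = κ j := i.2.trans j.2.symm
        have e2 : (fun j_1 => decide (Even ⌊y i j_1 / δ⌋)) = fun j_1 => decide (Even ⌊y j j_1 / δ⌋) :=
          congrArg Prod.fst e1
        have e3 := congrFun e2 k
        simpa using e3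
      have h1 := Pool.Agent.Y254.EL.floor_gap (Pool.Agent.Y254.EL.two_le_of_parity hne hpar)
      have h1' : 1 ≤ |(y i k - y j k) / δ| := by
        have e : (y i k - y j k) / δ = y i k / δ - y j k / δ := _root_.sub_div _ _ _
        rw [e]
        exact h1
      rw [abs_div, abs_of_pos hδ, le_div_iff₀ hδ, one_mul] at h1'
      have h2 := norm_le_pi_norm (y (i : X) - y (j : X)) k
      rw [Pi.sub_apply, Real.norm_eq_abs] at h2
      linarith
    have hcc : col i = col j := by
      have e1 : κ i = κ j := i.2.trans j.2.symm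
      exact congrArg Prod.snd e1
    exact hij (Subtype.ext (hcol i j hcell hcc))
  have hcard : (Finset.univ : Finset ((Fin d → Bool) × Fin B)).card = 2 ^ d * B := by
    rw [Finset.card_univ, Fintype.card_prod, Fintype.card_fun, Fintype.card_fin, Fintype.card_fin,
      Fintype.card_bool]
  calc ∫⁻ z, mult T z ^ q
      ≤ ∫⁻ z, ((2 ^ d * B : ℕ) : ℝ≥0∞) ^ (q - 1) * ∑ c, pmult T κ c z ^ q := by
        refine lintegral_mono fun z => ?_
        rw [hsum z]
        have h6 := ENNReal.rpow_sum_le_const_mul_sum_rpow (s := Finset.univ)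
          (f := fun c => pmult T κ c z) hq
        rw [hcard] at h6
        exact h6
    _ = ((2 ^ d * B : ℕ) : ℝ≥0∞) ^ (q - 1) * ∑ c, ∫⁻ z, pmult T κ c z ^ q := by
        rw [lintegral_const_mul _ (Finset.measurable_fun_sum _ fun c _ => (hpm c).pow_const _),
          lintegral_finsetSum _ fun c _ => (hpm c).pow_const _]
    _ ≤ ((2 ^ d * B : ℕ) : ℝ≥0∞) ^ (q - 1) * ∑ _c : (Fin d → Bool) × Fin B,
          ENNReal.ofReal (C * δ ^ (-ε)) := by
        gcongr with c _
        exact hpart c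
    _ = _ := by
        rw [Finset.sum_const, hcard, nsmul_eq_mul, ← mul_assoc]
        have e0 : ((2 ^ d * B : ℕ) : ℝ≥0∞) = ENNReal.ofReal ((2 ^ d * B : ℕ) : ℝ) := by
          rw [ENNReal.ofReal_natCast]
        rcases Nat.eq_zero_or_pos B with hB0 | hB0
        · subst hB0
          rw [mul_zero]
          have : (0 : ℝ) < q := by linarith
          simp [Real.zero_rpow this.ne']
        · have hpos : (0 : ℝ) < ((2 ^ d * B : ℕ) : ℝ) := by
            have : 0 < 2 ^ d * B := by positivity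
            exact_mod_cast this
          rw [e0, ENNReal.ofReal_rpow_of_pos hpos, ← ENNReal.ofReal_mul (by positivity),
            ← ENNReal.ofReal_mul (by positivity)]
          congr 2
          have e1 := Real.rpow_add hpos (q - 1) 1
          rw [Real.rpow_one, sub_add_cancel] at e1
          rw [e1]

/-- From complete families to all subfamilies: at most `card ι` slopes are completed to a family with
few slopes in each cell by random shifts. -/
theorem shifts (hd : 1 ≤ d) {R q ε C : ℝ} (hq : 1 ≤ q) (hC : 0 ≤ C) (hF : Full d R q ε C) {δ : ℝ}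
    (hδ : 0 < δ) (hδ1 : δ < 1) {ι : Type} [Fintype ι] [Nonempty ι] (b : ι → ℝ) (P v : ι → Fin d → ℝ)
    (hv : ∀ i, ‖v i‖ ≤ 1) (hs : Sep δ v) :
    ∃ B : ℕ, (2 : ℝ) ^ B ≤ 8 * (5 / δ) ^ d ∧
      ∫⁻ z, mult (fun i => tb R (R * δ) (b i) (P i) (v i)) z ^ q ≤
        ENNReal.ofReal ((Fintype.card ι : ℝ) * (2 * δ) ^ d * (((2 ^ d * B : ℕ) : ℝ) ^ q * (C * δ ^ (-ε)))) := by
  classical
  set m : ℕ := ⌊1 / δ⌋₊ with hm
  have hδi : 1 < 1 / δ := by rw [lt_div_iff₀ hδ]; linarith
  have hm1 : 1 ≤ m := by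
    rw [hm, Nat.one_le_floor_iff]
    exact hδi.le
  have hmle : (m : ℝ) ≤ 1 / δ := Nat.floor_le (by positivity)
  have hmlt : 1 / δ < m + 1 := Nat.lt_floor_add_one _
  have hmr : (1 : ℝ) ≤ m := by exact_mod_cast hm1
  have : Nonempty (Fin d → Fin m) := ⟨fun _ => ⟨0, by omega⟩⟩
  set M := Fintype.card ι with hM
  have hM0 : 0 < M := Fintype.card_pos
  have hW : Fintype.card (Fin d → Fin m) = m ^ d := by rw [Fintype.card_fun, Fintype.card_fin, Fintype.card_fin]
  set K : ℕ := m ^ d / M + 1 with hKd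
  set c : ι → (Fin d → Fin m) → (Fin d → ℤ) := fun i w j => ⌊v i j / δ⌋ + ((w j : ℕ) : ℤ) with hc
  set cells : Finset (Fin d → ℤ) := Fintype.piFinset fun _ => Finset.Icc (-((m : ℤ) + 1)) (2 * m) with hcells
  have hcv : ∀ i j, -((m : ℤ) + 1) ≤ ⌊v i j / δ⌋ ∧ ⌊v i j / δ⌋ ≤ m := by
    intro i j
    have h1 : |v i j| ≤ 1 := by
      have := (norm_le_pi_norm (v i) j).trans (hv i)
      rwa [Real.norm_eq_abs] at this
    have h2 := abs_le.1 h1
    have h3 : -((m : ℝ) + 1) ≤ v i j / δ := by
      have : -(1 / δ) ≤ v i j / δ := by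
        rw [← neg_div]
        gcongr
        exact h2.1
      linarith
    have h4 : v i j / δ < m + 1 := by
      refine lt_of_le_of_lt ?_ hmlt
      gcongr
      exact h2.2
    constructor
    · apply Int.le_floor.2
      push_cast
      exact h3
    · have h5 : ⌊v i j / δ⌋ < (m : ℤ) + 1 := by
        apply Int.floor_lt.2
        push_cast
        exact h4
      omega
  have hinj1 : ∀ w, Function.Injective (fun i => c i w) := by
    intro w i i' hii
    by_contra hne
    have h1 := hs i i' hne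
    have h2 : ‖v i - v i'‖ < δ := by
      rw [pi_norm_lt_iff hδ]
      intro j
      have h3 : ⌊v i j / δ⌋ = ⌊v i' j / δ⌋ := by
        have := congrFun hii j
        simp only [hc] at this
        linarith
      have h4 := Int.abs_sub_lt_one_of_floor_eq_floor h3
      have e : v i j / δ - v i' j / δ = (v i j - v i' j) / δ := (_root_.sub_div _ _ _).symm
      rw [e, abs_div, abs_of_pos hδ, div_lt_one hδ] at h4
      rw [Pi.sub_apply, Real.norm_eq_abs]
      exact h4
    linarith
  have hinj2 : ∀ i, Function.Injective (c i) := by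
    intro i w w' hww
    funext j
    have := congrFun hww j
    simp only [hc] at this
    apply Fin.ext
    omega
  have hKK : min (Fintype.card ι) (Fintype.card (Fin d → Fin m)) * K ≤
      2 * Fintype.card (Fin d → Fin m) := by
    rw [hW, ← hM]
    rcases le_total M (m ^ d) with h | h
    · rw [min_eq_left h]
      calc M * K = M * (m ^ d / M) + M := by rw [hKd]; ring
        _ ≤ m ^ d + m ^ d := add_le_add (Nat.mul_div_le _ _) h
        _ = 2 * m ^ d := by ring
    · rw [min_eq_right h]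
      have : m ^ d / M ≤ 1 := Nat.div_le_of_le_mul (by omega)
      calc m ^ d * K ≤ m ^ d * 2 := by gcongr; omega
        _ = 2 * m ^ d := by ring
  obtain ⟨g, hg⟩ := choose_shifts c cells hinj1 hinj2 K hKK
  have hcellcard : ((cells.card : ℕ) : ℝ) ≤ (5 / δ) ^ d := by
    rw [hcells, Fintype.card_piFinset]
    rw [Finset.prod_const, Finset.card_univ, Fintype.card_fin, Int.card_Icc]
    push_cast
    apply pow_le_pow_left₀ (by positivity)
    have e1 : ((2 * (m : ℤ) + 1 - -((m : ℤ) + 1)).toNat : ℝ) = 3 * m + 2 := by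
      have : (2 * (m : ℤ) + 1 - -((m : ℤ) + 1)).toNat = 3 * m + 2 := by omega
      rw [this]
      push_cast
      ring
    rw [e1]
    calc (3 : ℝ) * m + 2 ≤ 5 * m := by linarith
      _ ≤ 5 * (1 / δ) := by gcongr
      _ = 5 / δ := by ring
  have hinc : ∀ i w, c i w ∈ cells := by
    intro i w
    rw [hcells, Fintype.mem_piFinset]
    intro j
    rw [Finset.mem_Icc]
    have h1 := hcv i j
    have h2 := (w j).2
    simp only [hc]
    omega
  -- the largest number of members of a cell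
  set cnt : (Fin d → ℤ) → ℕ := fun x => (Finset.univ.filter fun p : ι × Fin K => c p.1 (g p.2) = x).card with hcnt
  set B : ℕ := cells.sup cnt with hB
  have hcne : cells.Nonempty := ⟨c (Classical.arbitrary ι) (Classical.arbitrary _), hinc _ _⟩
  have hB1 : (2 : ℝ) ^ B ≤ 8 * (5 / δ) ^ d := by
    obtain ⟨x, hx, hxB⟩ := Finset.exists_mem_eq_sup cells hcne cnt
    have h1 := hg x hx
    have h2 : (2 : ℕ) ^ B ≤ 8 * cells.card := by
      rw [hB, hxB]
      exact h1
    have h3 : (2 : ℝ) ^ B ≤ 8 * cells.card := by exact_mod_cast h2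
    exact h3.trans (by gcongr)
  have hB2 : ∀ x, cnt x ≤ B := by
    intro x
    by_cases hx : x ∈ cells
    · exact Finset.le_sup hx
    · have : cnt x = 0 := by
        rw [hcnt]
        simp only
        rw [Finset.card_eq_zero, Finset.filter_eq_empty_iff]
        intro p _ hp
        exact hx (hp ▸ hinc _ _)
      omega
  refine ⟨B, hB1, ?_⟩
  set sh : (Fin d → Fin m) → Fin d → ℝ := fun w j => δ * ((w j : ℕ) : ℝ) with hsh
  have hshn : ∀ w, ‖sh w‖ ≤ 1 := by
    intro w
    rw [pi_norm_le_iff_of_nonneg zero_le_one]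
    intro j
    simp only [hsh]
    rw [Real.norm_eq_abs, abs_of_nonneg (by positivity)]
    have h1 : ((w j : ℕ) : ℝ) ≤ 1 / δ := by
      have h2 : ((w j : ℕ) : ℝ) ≤ m := by exact_mod_cast (w j).2.le
      linarith
    calc δ * ((w j : ℕ) : ℝ) ≤ δ * (1 / δ) := by gcongr
      _ = 1 := by field_simp
  have hsplit := split_cells (d := d) hq hC hF hδ hδ1 (X := ι × Fin K) (fun p => b p.1) (fun p => P p.1)
    (fun p => v p.1 + sh (g p.2)) ?_ B ?_
  rotate_left
  · intro p
    calc ‖v p.1 + sh (g p.2)‖ ≤ ‖v p.1‖ + ‖sh (g p.2)‖ := norm_add_le _ _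
      _ ≤ 1 + 1 := add_le_add (hv _) (hshn _)
      _ = 2 := by norm_num
  · intro x
    refine le_trans (le_of_eq ?_) (hB2 x)
    rw [hcnt]
    simp only
    congr 1
    ext p
    rw [Finset.mem_filter, Finset.mem_filter]
    have e1 : (fun j => ⌊(v p.1 + sh (g p.2)) j / δ⌋ : Fin d → ℤ) = c p.1 (g p.2) := by
      funext j
      simp only [hc, hsh, Pi.add_apply]
      have e2 : (v p.1 j + δ * (((g p.2) j : ℕ) : ℝ)) / δ = v p.1 j / δ + ((((g p.2) j : ℕ) : ℤ) : ℝ) := by
        push_cast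
        field_simp
      rw [e2, Int.floor_add_intCast]
    rw [e1]
  -- superadditivity
  have hlow : (K : ℝ≥0∞) * ∫⁻ z, mult (fun i => tb R (R * δ) (b i) (P i) (v i)) z ^ q ≤
      ∫⁻ z, mult (fun p : ι × Fin K => tb R (R * δ) (b p.1) (P p.1) (v p.1 + sh (g p.2))) z ^ q := by
    calc (K : ℝ≥0∞) * ∫⁻ z, mult (fun i => tb R (R * δ) (b i) (P i) (v i)) z ^ q
        = ∑ l : Fin K, ∫⁻ z, mult (fun i => tb R (R * δ) (b i) (P i) (v i + sh (g l))) z ^ q := by
          simp only [shear]
          rw [Finset.sum_const, Finset.card_univ, Fintype.card_fin, nsmul_eq_mul]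
      _ = ∫⁻ z, ∑ l : Fin K, mult (fun i => tb R (R * δ) (b i) (P i) (v i + sh (g l))) z ^ q := by
          rw [lintegral_finsetSum]
          intro l _
          exact (mult_meas fun i => tb_meas _ _ _ _ _).pow_const _
      _ ≤ _ := by
          refine lintegral_mono fun z => ?_
          refine (sum_rpow_le_rpow_sum _ _ hq).trans (le_of_eq ?_)
          congr 1
          unfold mult
          rw [Fintype.sum_prod_type_right]
  have hK0 : (0 : ℝ) < K := by
    have : 0 < K := by rw [hKd]; exact Nat.succ_pos _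
    exact_mod_cast this
  have hKinv : 1 / (K : ℝ) ≤ M * (2 * δ) ^ d := by
    have h1 : (m : ℝ) ^ d / M ≤ K := by
      have h2 : m ^ d < M * (m ^ d / M + 1) := Nat.lt_mul_div_succ _ hM0
      have h3 : ((m ^ d : ℕ) : ℝ) ≤ ((M * K : ℕ) : ℝ) := by
        rw [hKd]
        exact_mod_cast h2.le
      push_cast at h3
      have hMr : (0 : ℝ) < M := by exact_mod_cast hM0
      rw [div_le_iff₀ hMr]
      linarith
    have h4 : 1 / (2 * δ) ≤ m := by
      have : 1 / δ < 2 * m := by linarith
      have e : 1 / (2 * δ) = 1 / δ / 2 := by field_simp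
      rw [e]
      linarith
    have hMr : (0 : ℝ) < M := by exact_mod_cast hM0
    have h5 : (1 / (2 * δ)) ^ d / M ≤ K := le_trans (by gcongr) h1
    have h6 : 0 < (1 / (2 * δ)) ^ d / M := by positivity
    calc 1 / (K : ℝ) ≤ 1 / ((1 / (2 * δ)) ^ d / M) := one_div_le_one_div_of_le h6 h5
      _ = _ := by
          rw [div_pow, one_pow]
          field_simp
  have hfin : ∫⁻ z, mult (fun i => tb R (R * δ) (b i) (P i) (v i)) z ^ q ≤
      ENNReal.ofReal (1 / K) * ENNReal.ofReal (((2 ^ d * B : ℕ) : ℝ) ^ q * (C * δ ^ (-ε))) := by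
    have h1 := hlow.trans hsplit
    have hKt : (K : ℝ≥0∞) ≠ 0 := by
      have : K ≠ 0 := by rw [hKd]; exact Nat.succ_ne_zero _
      exact_mod_cast this
    have e1 : ENNReal.ofReal (1 / (K : ℝ)) = (K : ℝ≥0∞)⁻¹ := by
      rw [one_div, ENNReal.ofReal_inv_of_pos hK0, ENNReal.ofReal_natCast]
    rw [e1, ← ENNReal.div_eq_inv_mul, ENNReal.le_div_iff_mul_le (Or.inl hKt)
      (Or.inl (ENNReal.natCast_ne_top K)), mul_comm]
    exact h1
  refine hfin.trans ?_
  rw [← ENNReal.ofReal_mul (by positivity)]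
  apply ENNReal.ofReal_le_ofReal
  gcongr

end Pool.Agent.N249.KE
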