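import Pool.Agent.N249.KE.D
import Pool.Agent.Y249.AC.Int
import Pool.Agent.Y249.AC.Cmp
import Pool.Agent.R251.Nec.Low

set_option autoImplicit false

/-!
# The chain of implications
-/

open MeasureTheory Set Filter Topology ENNReal NNReal Metric

namespace Pool.Agent.N249.KE

open Pool.Agent.H810R3.Tub (Vec Space nor box Fb dir Fb_measurable norm_dir finrank_space norm_e box_closed
  Fb_le Fb_int enorm_sum_box)
open Pool.Agent.Y254 (mult mult_meas pmult pmult_eq)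
open Pool.Agent.Y254.EL (tb Sep Pt tb_meas LoB LF EuF EuL)

variable {d : ℕ}

theorem lob_of_full (hd : 1 ≤ d) {R : ℝ} (h : ∀ ε : ℝ, 0 < ε → ∃ C : ℝ, 0 ≤ C ∧ Full d R (1 + 1 / (d : ℝ)) ε C)
    (ε : ℝ) (hε : 0 < ε) : ∃ C : ℝ, 0 ≤ C ∧ LoB d R (1 + 1 / (d : ℝ)) ε C := by
  have hd0 : (0 : ℝ) < d := by exact_mod_cast hd
  set q : ℝ := 1 + 1 / (d : ℝ) with hq
  have hq1 : 1 ≤ q := by
    have : 0 < 1 / (d : ℝ) := by positivity
    rw [hq]; linarith
  have hq0 : 0 < q := by linarith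
  obtain ⟨C, hC, hF⟩ := h (ε / 2) (by positivity)
  set η : ℝ := ε / (2 * d * q) with hη
  have hη0 : 0 < η := by positivity
  set A : ℝ := (2 ^ d * (2 / η) * (8 * 5 ^ d) ^ η) ^ q with hA
  have hA0 : 0 ≤ A := by positivity
  refine ⟨2 ^ d * A * C, by positivity, ?_⟩
  intro δ hδ hδ1 ι _ b P v hv hs
  rcases isEmpty_or_nonempty ι with hemp | hne
  · have : ∀ x, mult (fun i => tb R (R * δ) (b i) (P i) (v i)) x ^ q = 0 := by
      intro x
      unfold mult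
      rw [Finset.univ_eq_empty, Finset.sum_empty, ENNReal.zero_rpow_of_pos hq0]
    simp only [this, lintegral_zero]
    exact zero_le
  obtain ⟨B, hB, hI⟩ := shifts hd hq1 hC hF hδ hδ1 b P v hv hs
  refine hI.trans (ENNReal.ofReal_le_ofReal ?_)
  have hX0 : (0 : ℝ) < 8 * (5 / δ) ^ d := by positivity
  have hBη : (B : ℝ) ≤ 2 / η * (8 * (5 / δ) ^ d) ^ η := by
    have h1 : (B : ℝ) * Real.log 2 ≤ Real.log (8 * (5 / δ) ^ d) := by
      rw [← Real.log_pow]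
      exact Real.log_le_log (by positivity) hB
    have h2 := Real.log_le_rpow_div hX0.le hη0
    have h3 : (1 : ℝ) / 2 < Real.log 2 := by
      have := Real.log_two_gt_d9
      linarith
    have hB0 : (0 : ℝ) ≤ B := Nat.cast_nonneg B
    have h4 : (B : ℝ) / 2 ≤ (8 * (5 / δ) ^ d) ^ η / η := by nlinarith
    calc (B : ℝ) = 2 * (B / 2) := by ring
      _ ≤ 2 * ((8 * (5 / δ) ^ d) ^ η / η) := by gcongr
      _ = _ := by ring
  have hX : (8 * (5 / δ) ^ d) ^ η = (8 * 5 ^ d) ^ η * (δ ^ (-((d : ℝ) * η))) := by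
    have e1 : 8 * (5 / δ) ^ d = (8 * 5 ^ d) * (δ ^ d)⁻¹ := by
      rw [div_pow]; field_simp
    rw [e1, Real.mul_rpow (by positivity) (by positivity), Real.inv_rpow (by positivity),
      ← Real.rpow_natCast δ d, ← Real.rpow_mul hδ.le, ← Real.rpow_neg hδ.le]
  have hDq : (((2 ^ d * B : ℕ) : ℝ)) ^ q ≤ A * δ ^ (-(ε / 2)) := by
    have h1 : ((2 ^ d * B : ℕ) : ℝ) ≤ (2 ^ d * (2 / η) * (8 * 5 ^ d) ^ η) * δ ^ (-((d : ℝ) * η)) := by
      push_cast
      calc (2 : ℝ) ^ d * B ≤ 2 ^ d * (2 / η * (8 * (5 / δ) ^ d) ^ η) := by gcongr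
        _ = _ := by rw [hX]; ring
    calc (((2 ^ d * B : ℕ) : ℝ)) ^ q ≤
          ((2 ^ d * (2 / η) * (8 * 5 ^ d) ^ η) * δ ^ (-((d : ℝ) * η))) ^ q :=
          Real.rpow_le_rpow (by positivity) h1 hq0.le
      _ = A * δ ^ (-(ε / 2)) := by
          rw [Real.mul_rpow (by positivity) (by positivity), ← Real.rpow_mul hδ.le, hA]
          congr 2
          rw [hη]
          field_simp
  have e2 : (Fintype.card ι : ℝ) ^ (q - 1 / (d : ℝ)) = Fintype.card ι := by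
    have : q - 1 / (d : ℝ) = 1 := by rw [hq]; ring
    rw [this, Real.rpow_one]
  have e3 : δ ^ (-(ε / 2)) * δ ^ (-(ε / 2)) = δ ^ (-ε) := by
    rw [← Real.rpow_add hδ]
    congr 1
    ring
  rw [e2]
  calc (Fintype.card ι : ℝ) * (2 * δ) ^ d * (((2 ^ d * B : ℕ) : ℝ) ^ q * (C * δ ^ (-(ε / 2))))
      ≤ (Fintype.card ι : ℝ) * (2 * δ) ^ d * ((A * δ ^ (-(ε / 2))) * (C * δ ^ (-(ε / 2)))) := by
        gcongr
    _ = 2 ^ d * A * C * ((δ ^ (-(ε / 2)) * δ ^ (-(ε / 2))) * (δ ^ d * Fintype.card ι)) := by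
        rw [mul_pow]; ring
    _ = _ := by rw [e3]

/-- The loss-free inequality for all subfamilies above the critical exponent. -/
def Hub (d : ℕ) : Prop := ∀ q : ℝ, 1 + 1 / (d : ℝ) < q → ∃ C : ℝ, 0 < C ∧ EuF d q C

theorem hub_of_crit (hd : 2 ≤ d) : ∃ κ : ℝ, 0 < κ ∧
    ((∀ ε : ℝ, 0 < ε → ∃ C : ℝ, 0 ≤ C ∧ Crit d (1 / (8 * (d : ℝ))) κ ε C) → Hub d) := by
  have hdr : (2 : ℝ) ≤ d := by exact_mod_cast hd
  have hd0 : (0 : ℝ) < d := by linarith
  have hp0 : 0 < 1 / (d : ℝ) := by positivity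
  obtain ⟨κ, hκ, hfull⟩ := full_two (d := d) (by omega)
  refine ⟨κ, hκ, ?_⟩
  intro h q hq
  rcases lt_or_ge (1 + 2 / ((d + 1 : ℕ) : ℝ)) q with h1 | h1
  · obtain ⟨A, hA, hw⟩ := Pool.Agent.Y254.wolff (n := d + 1) (by omega) h1
    refine ⟨A, hA, ?_⟩
    intro δ hδ hδ1 ι _ a e he hsep
    have h2 := hw δ hδ hδ1 a e he hsep
    have e1 : (((d + 1 : ℕ) : ℝ) - 1) = d := by push_cast; ring
    rw [e1, Nat.add_sub_cancel] at h2
    exact h2
  · have hq2 : q ≤ 2 := by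
      refine h1.trans ?_
      have : 2 / ((d + 1 : ℕ) : ℝ) ≤ 1 := by
        rw [div_le_one (by positivity)]
        push_cast
        linarith
      linarith
    have hLF : ∀ R : ℝ, 1 ≤ R → ∃ C : ℝ, 0 ≤ C ∧ LF d R q C := by
      intro R hR
      refine Pool.Agent.Y254.EL.loss_removal (by omega) hR le_rfl hq hq2 ?_
      intro ε hε
      refine lob_of_full (by omega) ?_ ε hε
      intro ε' hε'
      obtain ⟨C, hC, hE⟩ := h ε' hε'
      exact hfull hR hC hE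
    have hq' : 1 + 1 / (d : ℝ) ≤ q := by linarith
    obtain ⟨C, hC, hT⟩ := Pool.Agent.Y244.HM.tubeP (by omega) hq'
      (Pool.Agent.Y254.EL.allwP_of_LF (by omega) hq' hLF)
    refine ⟨C, hC, ?_⟩
    intro δ hδ hδ1 ι _ a e he hsep
    have h2 := hT δ hδ hδ1.le ι a e he hsep
    have e1 : C * δ ^ (d : ℝ) * (Fintype.card ι : ℝ) ^ (q - 1 / (d : ℝ)) =
        C * (δ ^ d * (Fintype.card ι : ℝ) ^ (q - 1 / (d : ℝ))) := by
      rw [Real.rpow_natCast]; ring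
    rw [e1] at h2
    exact h2

/-- The bound for boxes, all subfamilies. -/
theorem intB_of_hub (hd : 1 ≤ d) (h : Hub d) {c : ℝ} (hc : 1 < c) : Pool.Agent.Y249.AC.IntB d c := by
  have hd0 : (0 : ℝ) < d := by exact_mod_cast hd
  refine Pool.Agent.Y249.AC.INT hd (by linarith) ?_
  obtain ⟨C, hC, hE⟩ := h (1 + c / d) (by gcongr)
  refine ⟨C, hC, fun δ hδ hδ1 ι _ a e he hsep => ?_⟩
  refine (hE δ hδ hδ1 ι a e he hsep).trans (le_of_eq ?_)
  rw [Real.rpow_natCast, mul_assoc]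

theorem Fb_zero_or {ι : Type} [Fintype ι] (N : ℝ) (ω : ι → Vec d)
    (f : ι → Fin d → Space d) (a : ι → Space d) (y : Space d) : Fb N ω f a y = 0 ∨ 1 ≤ Fb N ω f a y := by
  by_cases h : ∃ i, y ∈ box N (nor (ω i)) (f i) (a i)
  · obtain ⟨i, hi⟩ := h
    right
    unfold Fb
    calc (1 : ℝ≥0∞) = (box N (nor (ω i)) (f i) (a i)).indicator (fun _ => 1) y := by
          rw [indicator_of_mem hi]
      _ ≤ _ := Finset.single_le_sum (f := fun i => (box N (nor (ω i)) (f i) (a i)).indicator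
          (fun _ => (1 : ℝ≥0∞)) y) (fun _ _ => zero_le) (Finset.mem_univ i)
  · left
    push Not at h
    unfold Fb
    exact Finset.sum_eq_zero fun i _ => indicator_of_notMem (h i) _

theorem Fb_rpow_le {ι : Type} [Fintype ι] (N : ℝ) (ω : ι → Vec d)
    (f : ι → Fin d → Space d) (a : ι → Space d) (y : Space d) {q0 q : ℝ} (hq0 : 0 < q0) (hq : q0 ≤ q) :
    Fb N ω f a y ^ q0 ≤ Fb N ω f a y ^ q := by
  rcases Fb_zero_or N ω f a y with h | h
  · rw [h, ENNReal.zero_rpow_of_pos hq0]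
    exact zero_le
  · exact ENNReal.rpow_le_rpow_of_exponent_le h hq

/-- The number of caps. -/
theorem card_caps {σ N : ℝ} (hσ : 0 < σ) (hσ1 : σ ≤ 1) (hN : 1 ≤ N) {ι : Type} [Fintype ι]
    (ω : ι → Vec d) (hω : ∀ i, ‖ω i‖ ≤ 1) (hsep : ∀ i j, i ≠ j → σ / N ≤ ‖ω i - ω j‖) :
    (Fintype.card ι : ℝ) ≤ (4 / σ * N) ^ d := by
  have hN0 : 0 < N := by linarith
  have h1 := Pool.Agent.R251.Nec.pack (s := σ / N) (ρ := 1) (by positivity) zero_le_one ω hsep 0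
    Finset.univ (fun i _ => by rw [sub_zero]; exact hω i)
  rw [Finset.card_univ] at h1
  refine h1.trans (pow_le_pow_left₀ (by positivity) ?_ _)
  have e1 : 2 * 1 / (σ / N) = 2 / σ * N := by field_simp
  rw [e1]
  have h2 : 1 ≤ 1 / σ * N := by
    have : 1 ≤ 1 / σ := by rw [le_div_iff₀ hσ]; linarith
    nlinarith
  have e2 : 4 / σ * N = 2 / σ * N + 2 * (1 / σ * N) := by ring
  rw [e2]
  linarith

theorem crit_of_intB (hd : 1 ≤ d) (h : ∀ c : ℝ, 1 < c → Pool.Agent.Y249.AC.IntB d c) {σ : ℝ}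
    (hσ : 0 < σ) (hσ1 : σ ≤ 1) (κ ε : ℝ) (hε : 0 < ε) : ∃ C : ℝ, 0 ≤ C ∧ Crit d σ κ ε C := by
  have hd0 : (0 : ℝ) < d := by exact_mod_cast hd
  obtain ⟨E, hE, hI⟩ := h (1 + ε) (by linarith) σ hσ hσ1
  refine ⟨E * (4 / σ) ^ ((d : ℝ) + ε), by positivity, ?_⟩
  intro N hN ι _ ω f a hω hsep _ hf
  have hN0 : 0 < N := by linarith
  have hM := card_caps hσ hσ1 hN ω hω hsep
  have h1 : ∫⁻ y, Fb N ω f a y ^ (1 + 1 / (d : ℝ)) ≤ ∫⁻ y, Fb N ω f a y ^ (1 + (1 + ε) / (d : ℝ)) := by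
    refine lintegral_mono fun y => Fb_rpow_le N ω f a y (by positivity) ?_
    gcongr
    linarith
  refine h1.trans ((hI N hN ι ω f a hω hsep hf).trans (ENNReal.ofReal_le_ofReal ?_))
  have e1 : (1 + (1 + ε - 1) / (d : ℝ)) = ((d : ℝ) + ε) / d := by field_simp; ring
  have h2 : (Fintype.card ι : ℝ) ^ (1 + (1 + ε - 1) / (d : ℝ)) ≤ (4 / σ * N) ^ ((d : ℝ) + ε) := by
    rw [e1]
    calc (Fintype.card ι : ℝ) ^ (((d : ℝ) + ε) / d) ≤ ((4 / σ * N) ^ d) ^ (((d : ℝ) + ε) / d) := by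
          gcongr
      _ = _ := by
          rw [← Real.rpow_natCast (4 / σ * N) d, ← Real.rpow_mul (by positivity)]
          congr 1
          field_simp
  calc E * (Fintype.card ι : ℝ) ^ (1 + (1 + ε - 1) / (d : ℝ)) * N ^ (d + 2)
      ≤ E * (4 / σ * N) ^ ((d : ℝ) + ε) * N ^ (d + 2) := by gcongr
    _ = E * (4 / σ) ^ ((d : ℝ) + ε) * N ^ ε * N ^ (2 * (d + 1)) := by
        rw [Real.mul_rpow (by positivity) hN0.le, Real.rpow_add hN0, Real.rpow_natCast]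
        ring

end Pool.Agent.N249.KE
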