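import Pool.Agent.N249.KE.E

set_option autoImplicit false

/-!
# Norms of sums of boxes
-/

open MeasureTheory Set Filter Topology ENNReal NNReal Metric

namespace Pool.Agent.N249.KE

open Pool.Agent.H810R3.Tub (Vec Space nor box Fb dir Fb_measurable norm_dir finrank_space norm_e box_closed
  Fb_le Fb_int enorm_sum_box)

variable {d : ℕ}

/-- The sum of the indicators of the boxes. -/
noncomputable def bsum {ι : Type} [Fintype ι] (N : ℝ) (ω : ι → Vec d)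
    (f : ι → Fin d → Space d) (a : ι → Space d) (y : Space d) : ℝ :=
  ∑ i, (box N (nor (ω i)) (f i) (a i)).indicator (fun _ => (1 : ℝ)) y

/-- Caps. -/
def Cp {ι : Type} [Fintype ι] (σ κ N : ℝ) (ω : ι → Vec d) (f : ι → Fin d → Space d) : Prop :=
  (∀ i, ‖ω i‖ ≤ 1) ∧ (∀ i j, i ≠ j → σ / N ≤ ‖ω i - ω j‖) ∧ κ * N ^ d ≤ (Fintype.card ι : ℝ) ∧
    ∀ i, Orthonormal ℝ (Fin.cons (nor (ω i)) (f i) : Fin (d + 1) → Space d)

/-- The inequality. -/
def Inq {ι : Type} [Fintype ι] (C N : ℝ) (p : ℝ≥0∞) (ω : ι → Vec d)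
    (f : ι → Fin d → Space d) (a : ι → Space d) : Prop :=
  eLpNorm (bsum N ω f a) p volume ≤ ENNReal.ofReal C * eLpNorm (bsum N ω f 0) p volume

theorem norm_pow {ι : Type} [Fintype ι] (N : ℝ) (ω : ι → Vec d) (f : ι → Fin d → Space d)
    (a : ι → Space d) {q : ℝ} (hq : 0 < q) :
    eLpNorm (bsum N ω f a) (ENNReal.ofReal q) volume ^ q = ∫⁻ y, Fb N ω f a y ^ q := by
  have h0 : ENNReal.ofReal q ≠ 0 := by
    rw [Ne, ENNReal.ofReal_eq_zero, not_le]
    exact hq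
  rw [eLpNorm_eq_lintegral_rpow_enorm_toReal h0 ENNReal.ofReal_ne_top, ENNReal.toReal_ofReal hq.le,
    ← ENNReal.rpow_mul, one_div_mul_cancel hq.ne', ENNReal.rpow_one]
  refine lintegral_congr fun y => ?_
  unfold bsum
  rw [enorm_sum_box]

theorem pow_of_inq {ι : Type} [Fintype ι] {C N : ℝ} {ω : ι → Vec d} {f : ι → Fin d → Space d}
    {a : ι → Space d} {q : ℝ} (hq : 0 < q) (hC : 0 < C) (h : Inq C N (ENNReal.ofReal q) ω f a) :
    ∫⁻ y, Fb N ω f a y ^ q ≤ ENNReal.ofReal (C ^ q) * ∫⁻ y, Fb N ω f 0 y ^ q := by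
  rw [← norm_pow N ω f a hq, ← norm_pow N ω f 0 hq, ← ENNReal.ofReal_rpow_of_pos hC,
    ← ENNReal.mul_rpow_of_nonneg _ _ hq.le]
  exact ENNReal.rpow_le_rpow h hq.le

/-- The centred family. -/
theorem centred (hd : 1 ≤ d) {σ : ℝ} (hσ : 0 < σ) (hσ1 : σ ≤ 1) : ∃ E : ℝ, 0 < E ∧
    ∀ N : ℝ, 1 ≤ N → ∀ (ι : Type) [Fintype ι] (ω : ι → Vec d) (f : ι → Fin d → Space d),
      (∀ i, ‖ω i‖ ≤ 1) → (∀ i j, i ≠ j → σ / N ≤ ‖ω i - ω j‖) →
      (∀ i, Orthonormal ℝ (Fin.cons (nor (ω i)) (f i) : Fin (d + 1) → Space d)) →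
      ∫⁻ y, Fb N ω f 0 y ^ (1 + 1 / (d : ℝ)) ≤
        ENNReal.ofReal (E * (1 + Real.log N) * N ^ (2 * (d + 1))) := by
  obtain ⟨E, hE, h⟩ := Pool.Agent.W772.tri_int d hd σ hσ hσ1
  refine ⟨E, hE, fun N hN ι _ ω f hω hsep hf => ?_⟩
  have h1 := h (LinearIsometryEquiv.refl ℝ (Vec d)) 0 0 N le_rfl le_rfl hN ι ω (fun _ => 0) (fun _ => 0) f
    hω hsep hf (fun i => by simp) (fun i i' j _ => by simp)
  have e1 : (fun i => (WithLp.toLp 2 ((0 : Vec d) + (0 : ℝ) • (-(2 : ℝ) • ω i), (0 : ℝ)) : Space d)) = 0 := by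
    funext i
    rw [zero_smul, add_zero]
    rfl
  rw [e1] at h1
  refine h1.trans (le_of_eq ?_)
  congr 1
  rw [add_zero, add_zero, one_pow]
  ring

theorem one_add_log_le {N η : ℝ} (hN : 1 ≤ N) (hη : 0 < η) : 1 + Real.log N ≤ (1 + 1 / η) * N ^ η := by
  have h1 := Real.log_le_rpow_div (by linarith : (0 : ℝ) ≤ N) hη
  have h2 : 1 ≤ N ^ η := Real.one_le_rpow hN hη.le
  calc 1 + Real.log N ≤ N ^ η + N ^ η / η := add_le_add h2 h1
    _ = (1 + 1 / η) * N ^ η := by ring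

/-- The critical exponent. -/
theorem crit_of_inq (hd : 1 ≤ d) {σ κ : ℝ} (hσ : 0 < σ) (hσ1 : σ ≤ 1)
    (h : ∀ ε : ℝ, 0 < ε → ∃ C : ℝ, ∀ N : ℝ, 1 ≤ N → ∀ (ι : Type) [Fintype ι] (ω : ι → Vec d)
      (f : ι → Fin d → Space d), Cp σ κ N ω f → ∀ a : ι → Space d,
      Inq (C * N ^ ε) N (ENNReal.ofReal (1 + 1 / (d : ℝ))) ω f a) (ε : ℝ) (hε : 0 < ε) :
    ∃ C : ℝ, 0 ≤ C ∧ Crit d σ κ ε C := by
  have hd0 : (0 : ℝ) < d := by exact_mod_cast hd
  set q : ℝ := 1 + 1 / (d : ℝ) with hq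
  have hq0 : 0 < q := by positivity
  obtain ⟨E, hE, hcen⟩ := centred (d := d) hd hσ hσ1
  obtain ⟨C, hC⟩ := h (ε / (2 * q)) (by positivity)
  set C1 : ℝ := max C 1 with hC1
  have hC10 : 0 < C1 := by positivity
  refine ⟨C1 ^ q * (E * (1 + 1 / (ε / 2))), by positivity, ?_⟩
  intro N hN ι _ ω f a hω hsep hcard hf
  have hN0 : 0 < N := by linarith
  have hI : Inq (C1 * N ^ (ε / (2 * q))) N (ENNReal.ofReal q) ω f a := by
    refine (hC N hN ι ω f ⟨hω, hsep, hcard, hf⟩ a).trans ?_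
    gcongr
    exact le_max_left _ _
  refine (pow_of_inq hq0 (by positivity) hI).trans ?_
  refine (mul_le_mul_right (hcen N hN ι ω f hω hsep hf) _).trans ?_
  rw [← ENNReal.ofReal_mul (by positivity)]
  apply ENNReal.ofReal_le_ofReal
  have e1 : (C1 * N ^ (ε / (2 * q))) ^ q = C1 ^ q * N ^ (ε / 2) := by
    rw [Real.mul_rpow hC10.le (by positivity), ← Real.rpow_mul hN0.le]
    congr 2
    field_simp
  rw [e1]
  have h2 := one_add_log_le hN (half_pos hε)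
  calc C1 ^ q * N ^ (ε / 2) * (E * (1 + Real.log N) * N ^ (2 * (d + 1)))
      ≤ C1 ^ q * N ^ (ε / 2) * (E * ((1 + 1 / (ε / 2)) * N ^ (ε / 2)) * N ^ (2 * (d + 1))) := by
        gcongr
    _ = C1 ^ q * (E * (1 + 1 / (ε / 2))) * (N ^ (ε / 2) * N ^ (ε / 2)) * N ^ (2 * (d + 1)) := by ring
    _ = _ := by
        rw [← Real.rpow_add hN0]
        congr 3
        ring

/-- From loss-free inequalities above the critical exponent to the critical exponent. -/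
theorem crit_of_free (hd : 1 ≤ d) {σ κ : ℝ} (hσ : 0 < σ) (hσ1 : σ ≤ 1)
    (h : ∀ q : ℝ, 1 + 1 / (d : ℝ) < q → ∃ C : ℝ, ∀ N : ℝ, 1 ≤ N → ∀ (ι : Type) [Fintype ι]
      (ω : ι → Vec d) (f : ι → Fin d → Space d), Cp σ κ N ω f → ∀ a : ι → Space d,
      Inq C N (ENNReal.ofReal q) ω f a) (ε : ℝ) (hε : 0 < ε) :
    ∃ C : ℝ, 0 ≤ C ∧ Crit d σ κ ε C := by
  have hd0 : (0 : ℝ) < d := by exact_mod_cast hd
  set q0 : ℝ := 1 + 1 / (d : ℝ) with hq0d
  have hq00 : 0 < q0 := by positivity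
  set η : ℝ := ε / (2 * d) with hη
  have hη0 : 0 < η := by positivity
  obtain ⟨E, hE, hcen⟩ := centred (d := d) hd hσ hσ1
  obtain ⟨C, hC⟩ := h (q0 + η) (by linarith)
  set q : ℝ := q0 + η with hq
  have hq0 : 0 < q := by positivity
  set C1 : ℝ := max C 1 with hC1
  have hC10 : 0 < C1 := by positivity
  refine ⟨C1 ^ q * ((4 / σ) ^ (ε / 2) * (E * (1 + 1 / (ε / 2)))), by positivity, ?_⟩
  intro N hN ι _ ω f a hω hsep hcard hf
  have hN0 : 0 < N := by linarith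
  have hM := card_caps hσ hσ1 hN ω hω hsep
  have hI : Inq C1 N (ENNReal.ofReal q) ω f a := by
    refine (hC N hN ι ω f ⟨hω, hsep, hcard, hf⟩ a).trans ?_
    gcongr
    exact le_max_left _ _
  have h1 : ∫⁻ y, Fb N ω f a y ^ q0 ≤ ∫⁻ y, Fb N ω f a y ^ q :=
    lintegral_mono fun y => Fb_rpow_le N ω f a y hq00 (by linarith)
  have h2 : ∫⁻ y, Fb N ω f 0 y ^ q ≤ ENNReal.ofReal ((4 / σ * N) ^ (ε / 2)) * ∫⁻ y, Fb N ω f 0 y ^ q0 := by
    rw [← lintegral_const_mul _ ((Fb_measurable N ω f 0).pow_const _)]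
    refine lintegral_mono fun y => ?_
    have hfin : Fb N ω f 0 y ≤ ENNReal.ofReal ((4 / σ * N) ^ d) := by
      refine (Fb_le N ω f 0 y).trans ?_
      rw [← ENNReal.ofReal_natCast]
      exact ENNReal.ofReal_le_ofReal hM
    have e1 : Fb N ω f 0 y ^ q = Fb N ω f 0 y ^ η * Fb N ω f 0 y ^ q0 := by
      rw [← ENNReal.rpow_add_of_nonneg _ _ hη0.le hq00.le, add_comm]
    rw [e1]
    gcongr
    calc Fb N ω f 0 y ^ η ≤ ENNReal.ofReal ((4 / σ * N) ^ d) ^ η := ENNReal.rpow_le_rpow hfin hη0.le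
      _ = _ := by
          rw [ENNReal.ofReal_rpow_of_pos (by positivity)]
          congr 1
          rw [← Real.rpow_natCast (4 / σ * N) d, ← Real.rpow_mul (by positivity)]
          congr 1
          rw [hη]
          field_simp
  refine h1.trans ((pow_of_inq hq0 hC10 hI).trans ?_)
  refine (mul_le_mul_right (h2.trans (mul_le_mul_right (hcen N hN ι ω f hω hsep hf) _)) _).trans ?_
  rw [← ENNReal.ofReal_mul (by positivity), ← ENNReal.ofReal_mul (by positivity)]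
  apply ENNReal.ofReal_le_ofReal
  have h3 := one_add_log_le hN (half_pos hε)
  calc C1 ^ q * ((4 / σ * N) ^ (ε / 2) * (E * (1 + Real.log N) * N ^ (2 * (d + 1))))
      ≤ C1 ^ q * ((4 / σ * N) ^ (ε / 2) * (E * ((1 + 1 / (ε / 2)) * N ^ (ε / 2)) * N ^ (2 * (d + 1)))) := by
        gcongr
    _ = C1 ^ q * ((4 / σ) ^ (ε / 2) * (E * (1 + 1 / (ε / 2)))) * (N ^ (ε / 2) * N ^ (ε / 2)) *
          N ^ (2 * (d + 1)) := by
        rw [Real.mul_rpow (by positivity) hN0.le]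
        ring
    _ = _ := by
        rw [← Real.rpow_add hN0]
        congr 3
        ring

theorem nonempty_of_cp {ι : Type} [Fintype ι] {σ κ N : ℝ} (hκ : 0 < κ) (hN : 1 ≤ N) {ω : ι → Vec d}
    {f : ι → Fin d → Space d} (h : Cp σ κ N ω f) : Nonempty ι := by
  have h1 : 0 < κ * N ^ d := by positivity
  have h2 : (0 : ℝ) < (Fintype.card ι : ℝ) := by linarith [h.2.2.1]
  have h3 : 0 < Fintype.card ι := by exact_mod_cast h2
  exact Fintype.card_pos_iff.1 h3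

/-- All exponents, with losses. -/
theorem loss_of_crit (hd : 1 ≤ d) {σ κ : ℝ} (hκ : 0 < κ)
    (h : ∀ ε : ℝ, 0 < ε → ∃ C : ℝ, 0 ≤ C ∧ Crit d σ κ ε C) (ε : ℝ) (hε : 0 < ε) :
    ∃ C : ℝ, ∀ N : ℝ, 1 ≤ N → ∀ (ι : Type) [Fintype ι] (ω : ι → Vec d)
      (f : ι → Fin d → Space d), Cp σ κ N ω f → ∀ (a : ι → Space d) (p : ℝ≥0∞), 1 ≤ p →
      Inq (C * N ^ ε) N p ω f a := by
  obtain ⟨C, hC, hcr⟩ := h ε hε
  obtain ⟨D, hD, hcmp⟩ := Pool.Agent.W772.compare_tri d hd κ (C + 1) hκ (by linarith)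
  refine ⟨D, fun N hN ι _ ω f hcp a p hp => ?_⟩
  have hne := nonempty_of_cp hκ hN hcp
  obtain ⟨hω, hsep, hcard, hf⟩ := hcp
  have hN0 : 0 < N := by linarith
  have hY : 1 ≤ N ^ ε := Real.one_le_rpow hN hε.le
  have h1 : ∫⁻ y, Fb N ω f a y ^ (1 + 1 / (d : ℝ)) ≤
      ENNReal.ofReal ((C + 1) * N ^ ε * N ^ (2 * (d + 1))) := by
    refine (hcr N hN ι ω f a hω hsep hcard hf).trans (ENNReal.ofReal_le_ofReal ?_)
    gcongr
    linarith
  refine (hcmp hN hY ω f hf a hcard h1 p hp).trans ?_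
  show _ ≤ ENNReal.ofReal (D * N ^ ε) * eLpNorm (bsum N ω f 0) p volume
  refine mul_le_mul' (ENNReal.ofReal_le_ofReal ?_) le_rfl
  apply mul_le_mul_of_nonneg_left _ (by linarith)
  calc (N ^ ε) ^ Pool.Agent.W772.th d p ≤ (N ^ ε) ^ (1 : ℝ) := by
        apply Real.rpow_le_rpow_of_exponent_le hY
        unfold Pool.Agent.W772.th
        refine (min_le_right _ _).trans ?_
        rcases eq_or_ne p ∞ with ht | ht
        · rw [ht]; simp
        · have h2 : 1 ≤ p.toReal := by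
            rw [← ENNReal.toReal_one]
            exact ENNReal.toReal_mono ht hp
          rw [div_le_one (by linarith)]
          exact h2
    _ = N ^ ε := Real.rpow_one _

/-- No loss above the critical exponent. -/
theorem free_of_hub (hd : 2 ≤ d) (h : Hub d) {σ κ : ℝ} (hσ : 0 < σ) (hσ1 : σ ≤ 1) (hκ : 0 < κ) {q : ℝ}
    (hq : 1 + 1 / (d : ℝ) < q) :
    ∃ C : ℝ, ∀ N : ℝ, 1 ≤ N → ∀ (ι : Type) [Fintype ι] (ω : ι → Vec d)
      (f : ι → Fin d → Space d), Cp σ κ N ω f → ∀ (a : ι → Space d) (p : ℝ≥0∞), ENNReal.ofReal q ≤ p →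
      Inq C N p ω f a := by
  have hd0 : (0 : ℝ) < d := by exact_mod_cast (by omega : 0 < d)
  set c : ℝ := (q - 1) * d with hc
  have hqc : q = 1 + c / d := by rw [hc]; field_simp; ring
  have hc1 : 1 < c := by
    have : 1 / (d : ℝ) < q - 1 := by linarith
    rwa [div_lt_iff₀ hd0] at this
  have hc0 : 0 < c := by linarith
  obtain ⟨E, hE, hI⟩ := intB_of_hub (by omega) h hc1 σ hσ hσ1
  obtain ⟨D, hD, hC⟩ := Pool.Agent.Y249.AC.CMP (d := d) (c := c) (by omega) hc0 κ E hκ hE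
  refine ⟨D, fun N hN ι _ ω f hcp a p hp => ?_⟩
  have hne := nonempty_of_cp hκ hN hcp
  obtain ⟨hω, hsep, hcard, hf⟩ := hcp
  have hp1 : 1 ≤ p := by
    refine le_trans ?_ hp
    rw [← ENNReal.ofReal_one]
    apply ENNReal.ofReal_le_ofReal
    have : 0 < 1 / (d : ℝ) := by positivity
    linarith
  have key := hC hN ω f hf a hcard (hI N hN ι ω f a hω hsep hf) p hp1
  have hg : Pool.Agent.Y249.AC.gam d c p = 0 := by
    unfold Pool.Agent.Y249.AC.gam
    apply max_eq_left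
    apply min_le_of_right_le
    have hu : c / ((d : ℝ) + c) ≤ 1 - 1 / p.toReal := by
      rcases eq_or_ne p ∞ with ht | ht
      · have h0 : (1 : ℝ) - 1 / p.toReal = 1 := by rw [ht]; simp
        rw [h0, div_le_one (by positivity)]
        linarith
      · rw [hqc] at hp
        have h1 : 1 + c / (d : ℝ) ≤ p.toReal := (ENNReal.ofReal_le_iff_le_toReal ht).1 hp
        have h2 : 1 / p.toReal ≤ 1 / (1 + c / (d : ℝ)) := one_div_le_one_div_of_le (by positivity) h1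
        have h3 : 1 / (1 + c / (d : ℝ)) = 1 - c / ((d : ℝ) + c) := by
          field_simp
          ring
        linarith
    have h4 : 1 ≤ (1 - 1 / p.toReal) * ((d : ℝ) + c) / c := by
      rw [le_div_iff₀ hc0]
      have h5 := mul_le_mul_of_nonneg_right hu (by positivity : (0 : ℝ) ≤ (d : ℝ) + c)
      rw [div_mul_cancel₀ _ (by positivity)] at h5
      linarith
    linarith
  rw [hg, Real.rpow_zero, mul_one] at key
  exact key

end Pool.Agent.N249.KE
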